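import Pool.Agent.Helper94_CTD.Stmts

/-!
# Modules D1, D2: calculus of the Boolean values
-/

open Set

namespace Pool.Agent.CTD.H91

open Pool.Agent.CTD

section

variable {B : Type 1} [CompleteBooleanAlgebra B] {io : Cnd → B}

/-- an inequality in the algebra can be checked on conditions -/
theorem le_of_dense (h : IsDenseEmb io) {b c : B}
    (hd : ∀ q, io q ≤ b → ∃ q' ≤ q, io q' ≤ c) : b ≤ c := by
  by_contra hbc
  have h1 : b ⊓ cᶜ ≠ ⊥ := fun h2 => hbc (by
    have h3 := le_compl_iff_disjoint_right.mpr (disjoint_iff.mpr h2)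
    rw [compl_compl] at h3
    exact h3)
  obtain ⟨q, hq⟩ := h.exists_le _ h1
  obtain ⟨q', hq', hc⟩ := hd q (hq.trans inf_le_left)
  have h2 : io q' ≤ c ⊓ cᶜ := le_inf hc ((h.mono _ _ hq').trans (hq.trans inf_le_right))
  rw [inf_compl_eq_bot] at h2
  exact h.ne_bot q' (le_bot_iff.1 h2)

theorem io_le_val {q : Cnd} {A : Set Ev} (hq : Ent q A) : io q ≤ val io A :=
  le_iSup (fun q : {q : Cnd // Ent q A} => io q.1) ⟨q, hq⟩

theorem exists_ent (h : IsDenseEmb io) {p : Cnd} {A : Set Ev} (hp : io p ⊓ val io A ≠ ⊥) :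
    ∃ q ≤ p, Ent q A := by
  unfold val at hp
  rw [inf_iSup_eq] at hp
  have h1 : ∃ q : {q : Cnd // Ent q A}, io p ⊓ io q.1 ≠ ⊥ := by
    by_contra hcon
    push Not at hcon
    exact hp (iSup_eq_bot.2 hcon)
  obtain ⟨q, hq⟩ := h1
  obtain ⟨r, hr, hr'⟩ := h.compat _ _ hq
  exact ⟨r, hr, q.2.mono hr'⟩

theorem exists_ent_of_le (h : IsDenseEmb io) {p : Cnd} {A : Set Ev} (hp : io p ≤ val io A) :
    ∃ q ≤ p, Ent q A := by
  refine exists_ent h ?_
  rw [inf_eq_left.2 hp]
  exact h.ne_bot p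

theorem val_mono {A A' : Set Ev} (hA : A ⊆ A') : val io A ≤ val io A' := by
  refine iSup_le (fun q => io_le_val (fun e he => hA (q.2 e he)))

theorem val_inter (h : IsDenseEmb io) (A A' : Set Ev) :
    val io (A ∩ A') = val io A ⊓ val io A' := by
  refine le_antisymm (le_inf (val_mono inter_subset_left) (val_mono inter_subset_right)) ?_
  refine le_of_dense h (fun q hq => ?_)
  obtain ⟨q1, hq1, he1⟩ := exists_ent_of_le h (hq.trans inf_le_left)
  obtain ⟨q2, hq2, he2⟩ := exists_ent_of_le h ((h.mono _ _ hq1).trans (hq.trans inf_le_right))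
  exact ⟨q2, hq2.trans hq1, io_le_val (fun e he => ⟨he1.mono hq2 e he, he2 e he⟩)⟩

theorem val_univ (h : IsDenseEmb io) : val io Set.univ = ⊤ := by
  refine top_le_iff.1 (le_of_dense h (fun q _ => ⟨q, le_refl _, io_le_val (fun e _ => mem_univ e)⟩))

theorem val_empty : val io ∅ = ⊥ := by
  unfold val
  refine iSup_eq_bot.2 (fun q => ?_)
  exact (q.2.self).elim

theorem val_imp (h : IsDenseEmb io) {q : Cnd} {A A' : Set Ev}
    (hq : Ent q {e | e ∈ A → e ∈ A'}) : io q ⊓ val io A ≤ val io A' := by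
  refine le_of_dense h (fun q1 hq1 => ?_)
  have h1 : io q1 ⊓ io q ≠ ⊥ := by
    rw [inf_eq_left.2 (hq1.trans inf_le_left)]
    exact h.ne_bot q1
  obtain ⟨r, hr, hr'⟩ := h.compat _ _ h1
  obtain ⟨r', hr2, he⟩ := exists_ent_of_le h ((h.mono _ _ hr).trans (hq1.trans inf_le_right))
  exact ⟨r', hr2.trans hr, io_le_val (fun e hee => (hq.mono (hr2.trans hr')) e hee (he e hee))⟩

theorem val_compl (h : IsDenseEmb io) {A : Set Ev}
    (hA : ∀ p : Cnd, ∃ q ≤ p, Ent q A ∨ Ent q Aᶜ) : val io Aᶜ = (val io A)ᶜ := by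
  refine le_antisymm ?_ ?_
  · rw [le_compl_iff_disjoint_right, disjoint_iff, ← val_inter h, compl_inter_self]
    exact val_empty
  · refine le_of_dense h (fun q hq => ?_)
    obtain ⟨q', hq', h1 | h1⟩ := hA q
    · have h2 : io q' ≤ val io A ⊓ (val io A)ᶜ := le_inf (io_le_val h1) ((h.mono _ _ hq').trans hq)
      rw [inf_compl_eq_bot] at h2
      exact absurd (le_bot_iff.1 h2) (h.ne_bot q')
    · exact ⟨q', hq', io_le_val h1⟩

end

/-- module D1 -/
theorem d1 : D1Va := by
  intro B _ io h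
  exact ⟨fun q A hq => io_le_val hq, fun p A hp => exists_ent h hp, val_inter h,
    fun q A A' hq => val_imp h hq, fun A hA => val_compl h hA, val_univ h, val_empty⟩

/-- module D2 -/
theorem d2 (hC2 : C2De) : D2Cv := by
  intro B _ io h
  have h1 : ∀ Z Z' b, cv io (Z ∩ Z') b = cv io Z b ⊓ cv io Z' b := by
    intro Z Z' b
    unfold cv
    rw [← val_inter h]
    rfl
  have h4 : ∀ b, cv io Set.univ b = ⊤ := by
    intro b
    unfold cv
    exact top_le_iff.1 ((val_univ h).symm.le.trans (val_mono (fun e _ => mem_univ _)))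
  refine ⟨h1, ?_, ?_, h4, ?_⟩
  · rintro Z b ⟨D, _, hD, hZ⟩
    unfold cv
    have e : {e : Ev | fv e b ∈ Zᶜ} = {e : Ev | fv e b ∈ Z}ᶜ := rfl
    rw [e]
    refine val_compl h (fun p => ?_)
    obtain ⟨q, hq, φ, hφ⟩ := hC2 p b D hD
    refine ⟨q, hq, ?_⟩
    by_cases hm : φ ∈ Z
    · left
      intro e he
      exact (hZ _ _ (fun t ht => hφ e he t ht)).2 hm
    · right
      intro e he hz
      exact hm ((hZ _ _ (fun t ht => hφ e he t ht)).1 hz)
  · intro Z Z' q b hq
    exact val_imp h hq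
  · intro K φ b
    classical
    induction K using Finset.induction_on with
    | empty =>
      have e : Zf ∅ φ = Set.univ := by
        ext π
        simp [Zf]
      rw [e, h4]
      simp
    | insert t K ht ih =>
      have e : Zf (insert t K) φ = {π | π t = φ t} ∩ Zf K φ := by
        ext π
        simp [Zf]
      rw [e, h1, ih, Finset.iInf_insert]

end Pool.Agent.CTD.H91
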