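import Pool.Agent.Helper91_CTD.D1

/-!
# Module D12: distinct points, a small dense set
-/

open Set

namespace Pool.Agent.CTD.H91

open Pool.Agent.CTD

theorem small_D0 : Small.{0} D0 := by
  let f : D0 → (Set.Iio o1 → Bool) := fun b x => b.1 x.1
  have hf : Function.Injective f := by
    rintro ⟨b, δ, hδ, hb⟩ ⟨b', δ', hδ', hb'⟩ he
    apply Subtype.ext
    funext x
    by_cases hx : x < o1
    · exact congrFun he ⟨x, hx⟩
    · have h1 : o1 ≤ x := not_lt.1 hx
      change b x = b' x
      rw [hb x (hδ.le.trans h1), hb' x (hδ'.le.trans h1)]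
  exact small_of_injective hf

/-- a small set is enumerated by an initial segment of the ordinals -/
theorem enum_small {X : Type 1} (S : Set X) (hS : Small.{0} S) (x0 : X) :
    ∃ (α0 : Th) (d : Th → X), (∀ i < α0, ∀ j < α0, d i = d j → i = j) ∧
      (∀ i < α0, d i ∈ S) ∧ ∀ x ∈ S, ∃ i < α0, d i = x := by
  classical
  have h1 : Cardinal.mk (Set.Iio (Cardinal.mk (Shrink.{0} S)).ord) = Cardinal.mk S := by
    rw [Cardinal.mk_Iio_ordinal, Cardinal.card_ord, ← Cardinal.mk_uLift]
    exact Cardinal.mk_congr (Equiv.ulift.trans (equivShrink S).symm)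
  obtain ⟨e⟩ := Cardinal.eq.1 h1
  refine ⟨(Cardinal.mk (Shrink.{0} S)).ord,
    fun i => if h : i < (Cardinal.mk (Shrink.{0} S)).ord then (e ⟨i, h⟩).1 else x0, ?_, ?_, ?_⟩
  · intro i hi j hj hij
    simp only [dif_pos hi, dif_pos hj] at hij
    have h2 := e.injective (Subtype.ext hij)
    exact congrArg Subtype.val h2
  · intro i hi
    simp only [dif_pos hi]
    exact (e ⟨i, hi⟩).2
  · intro x hx
    refine ⟨(e.symm ⟨x, hx⟩).1, (e.symm ⟨x, hx⟩).2, ?_⟩
    have h3 : (e.symm ⟨x, hx⟩).1 < (Cardinal.mk (Shrink.{0} S)).ord := (e.symm ⟨x, hx⟩).2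
    simp only [dif_pos h3]
    change (e (e.symm ⟨x, hx⟩)).1 = x
    rw [Equiv.apply_symm_apply]

/-- module D12 -/
theorem d12 (hA3 : A3Ix) (hC6 : C6Dn) : D12P2 := by
  classical
  intro B _ io h
  obtain ⟨_, hxi, _, _⟩ := hA3
  constructor
  · intro b b' hne
    have h1 : ∃ x, b x ≠ b' x := by
      by_contra hcon
      push Not at hcon
      exact hne (funext hcon)
    obtain ⟨δ, hδ, hm⟩ := WellFounded.has_min
      (wellFounded_lt : WellFounded (· < · : Th → Th → Prop)) {x | b x ≠ b' x} h1
    have hm' : ∀ x < δ, b x = b' x := by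
      intro x hx
      by_contra hcon
      exact hm x hcon hx
    have hv : ∀ e, fv e b (brr b δ) = b δ := fun e => fv_brr e b δ
    have hv' : ∀ e, fv e b' (brr b δ) = b' δ := fun e => by
      rw [fv_on e b' (brr b δ) (fun x hx => by
        rw [brr_len] at hx
        rw [brr_fn b hx, hm' x hx]), brr_len]
    have key : ∀ (a : Br) (v : Bool), (∀ e, fv e a (brr b δ) = v) →
        Fb io a (ix (brr b δ)) = if v = true then ⊤ else ⊥ := by
      intro a v ha
      unfold Fb cv
      rw [hxi]
      by_cases hvt : v = true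
      · rw [if_pos hvt]
        have e : {e : Ev | fv e a ∈ {π : Nd → Bool | π (brr b δ) = true}} = Set.univ := by
          ext e
          simp only [mem_ofPred_eq, mem_univ, iff_true]
          rw [ha e, hvt]
        rw [e]
        exact val_univ h
      · rw [if_neg hvt]
        have e : {e : Ev | fv e a ∈ {π : Nd → Bool | π (brr b δ) = true}} = ∅ := by
          ext e
          simp only [mem_ofPred_eq, mem_empty_iff_false, iff_false]
          rw [ha e]
          exact hvt
        rw [e]
        exact val_empty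
    refine ⟨ix (brr b δ), ?_⟩
    rw [key b (b δ) hv, key b' (b' δ) hv']
    have hδ' : b δ ≠ b' δ := hδ
    by_cases h2 : b δ = true
    · have h3 : ¬ b' δ = true := fun h3 => hδ' (h2.trans h3.symm)
      rw [if_pos h2, if_neg h3]
      simp
    · have h3 : b' δ = true := by
        cases hb : b δ
        · cases hb' : b' δ
          · exact absurd (hb.trans hb'.symm) hδ'
          · rfl
        · exact absurd hb h2
      rw [if_neg h2, if_pos h3]
      simp
  · obtain ⟨α0, d, hd1, _, hd3⟩ := enum_small D0 small_D0 (fun _ => false)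
    refine ⟨α0, d, hd1, ?_⟩
    intro b K
    rw [← top_le_iff]
    refine le_of_dense h (fun p _ => ?_)
    obtain ⟨q, hq, b', hb', hent⟩ := hC6 p b (xi '' (K : Set Th))
      ((K.finite_toSet.image _).countable)
    obtain ⟨i, hi, hdi⟩ := hd3 b' hb'
    refine ⟨q, hq, ?_⟩
    refine le_iSup_of_le i (le_iSup_of_le hi ?_)
    rw [hdi]
    unfold agr
    refine le_iInf (fun α => le_iInf (fun hα => ?_))
    refine le_inf (le_himp_iff.2 ?_) (le_himp_iff.2 ?_)
    · unfold Fb cv
      refine val_imp h (fun e he hf => ?_)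
      have h4 := hent e he (xi α) (mem_image_of_mem _ hα)
      change fv e b (xi α) = true
      rw [← h4]
      exact hf
    · unfold Fb cv
      refine val_imp h (fun e he hf => ?_)
      have h4 := hent e he (xi α) (mem_image_of_mem _ hα)
      change fv e b' (xi α) = true
      rw [h4]
      exact hf

end Pool.Agent.CTD.H91
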