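import Pool.Agent.Helper91_CTD.D1

/-!
# Modules D13, D14: the collapse to the first uncountable ordinal, which is not collapsed
-/

open Set

namespace Pool.Agent.CTD.H91

open Pool.Agent.CTD

/-- the evaluations whose first entry with ordinal `β` at the node `t` has the index `ξ` -/
def fst (t : Nd) (β : Th) (ξ : Th) : Set Ev :=
  {e | ∃ h : ξ < o1, (∃ i, e t ⟨ξ, h⟩ = some (β, i)) ∧
    ∀ ξ' : W1, ξ' < ⟨ξ, h⟩ → ∀ i, e t ξ' ≠ some (β, i)}

/-- module D13 -/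
theorem d13 : D13Ja := by
  classical
  intro B _ io h
  let nd : Th → Nd := fun α => brr (fun _ => false) α
  refine ⟨fun α β ξ => if β < α then val io (fst (nd α) β ξ) else ⊥, ?_, ?_, ?_⟩
  · intro α β hβ
    rw [← top_le_iff]
    refine le_of_dense h (fun p _ => ?_)
    obtain ⟨s', θ, h1, h2, h3, h4⟩ := row (p.1 (nd α)) (cnt_row p (nd α)) {β}
      (countable_singleton β) ⟨β, rfl⟩ false
    obtain ⟨q, hq, _, hq2⟩ := updCnd p {nd α} (countable_singleton _) (fun _ => s')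
      (fun t _ => (cnt_Iio_W1 θ).mono (fun ξ hξ => (h2 ξ).1 hξ))
      (fun t ht ξ v hv => by
        rw [mem_singleton_iff] at ht
        subst ht
        rcases h3 ξ v hv with h5 | ⟨h5, _⟩
        · exact p.2.bd _ _ _ h5
        · rw [mem_singleton_iff] at h5
          rw [h5]
          exact hβ)
      (fun t ht ξ v hv => by
        rw [mem_singleton_iff] at ht
        subst ht
        exact h1 ξ v hv)
    refine ⟨q, hq, ?_⟩
    have hrow : q.1 (nd α) = s' := hq2 _ rfl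
    obtain ⟨ξ0, hξ0⟩ := h4 β rfl
    obtain ⟨ξ, ⟨i, hi⟩, hm⟩ := WellFounded.has_min
      (wellFounded_lt : WellFounded (· < · : W1 → W1 → Prop))
      {ξ | ∃ i, s' ξ = some (β, i)} ⟨ξ0, false, hξ0⟩
    have hent : Ent q (fst (nd α) β ξ.1) := by
      intro e he
      refine ⟨ξ.2, ⟨i, he _ _ _ (by rw [hrow]; exact hi)⟩, ?_⟩
      intro ξ' hξ' j hj
      have hlt : ξ' < ξ := hξ'
      have hdom : s' ξ' ≠ none := by
        rw [h2]
        refine hlt.trans ((h2 ξ).1 ?_)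
        rw [hi]
        exact Option.some_ne_none _
      obtain ⟨v, hv⟩ := Option.ne_none_iff_exists'.1 hdom
      have h5 := he (nd α) ξ' v (by rw [hrow]; exact hv)
      rw [hj] at h5
      rw [← Option.some.inj h5] at hv
      exact hm ξ' ⟨j, hv⟩ hlt
    refine (io_le_val hent).trans ?_
    refine le_iSup_of_le ξ.1 (le_iSup_of_le ξ.2 ?_)
    simp only [if_pos hβ, le_refl]
  · intro α β ξ ξ' hne
    by_cases hβ : β < α
    · simp only [if_pos hβ]
      rw [← val_inter h]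
      have e : fst (nd α) β ξ ∩ fst (nd α) β ξ' = ∅ := by
        rw [Set.eq_empty_iff_forall_notMem]
        rintro e ⟨⟨h1, ⟨i, hi⟩, h2⟩, ⟨h3, ⟨j, hj⟩, h4⟩⟩
        rcases lt_trichotomy ξ ξ' with hl | hl | hl
        · exact h4 ⟨ξ, h1⟩ hl i hi
        · exact hne hl
        · exact h2 ⟨ξ', h3⟩ hl j hj
      rw [e]
      exact val_empty
    · simp only [if_neg hβ, bot_inf_eq]
  · intro α β β' ξ hne
    by_cases hβ : β < α
    · by_cases hβ' : β' < α
      · simp only [if_pos hβ, if_pos hβ']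
        rw [← val_inter h]
        have e : fst (nd α) β ξ ∩ fst (nd α) β' ξ = ∅ := by
          rw [Set.eq_empty_iff_forall_notMem]
          rintro e ⟨⟨h1, ⟨i, hi⟩, _⟩, ⟨h3, ⟨j, hj⟩, _⟩⟩
          rw [hi] at hj
          exact hne (congrArg Prod.fst (Option.some.inj hj))
        rw [e]
        exact val_empty
      · simp only [if_neg hβ', inf_bot_eq]
    · simp only [if_neg hβ, bot_inf_eq]

/-- module D14 -/
theorem d14 : D14P4 := by
  classical
  intro B _ io h y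
  by_contra hne
  set c := (⨅ ξ : Th, ⨅ _ : ξ < o1, ⨆ η : Th, ⨆ _ : η < Ordinal.omega0, y ξ η) ⊓
    (⨅ ξ : Th, ⨅ _ : ξ < o1, ⨅ ξ' : Th, ⨅ _ : ξ' < o1, ⨅ _ : ξ ≠ ξ', ⨅ η : Th,
      ⨅ _ : η < Ordinal.omega0, (y ξ η ⊓ y ξ' η)ᶜ) with hc
  obtain ⟨p0, hp0⟩ := h.exists_le c hne
  have hstep : ∀ (n : ℕ) (p : Cnd), ∃ q ≤ p, ∃ ξ : W1, (io q ≤ y ξ.1 n) ∨
      ∀ ξ : W1, io p ⊓ y ξ.1 n = ⊥ := by
    intro n p
    by_cases hx : ∃ ξ : W1, io p ⊓ y ξ.1 n ≠ ⊥
    · obtain ⟨ξ, hξ⟩ := hx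
      rw [inf_comm] at hξ
      obtain ⟨q, hq, hq2⟩ := h.dense _ _ hξ
      exact ⟨q, hq, ξ, Or.inl hq2⟩
    · push Not at hx
      obtain ⟨θ, _⟩ := bdd_W1 ∅ countable_empty
      exact ⟨p, le_refl _, θ, Or.inr hx⟩
  choose nx hnx xi' hxi using hstep
  let s : ℕ → Cnd := fun n => Nat.rec p0 (fun n q => nx n q) n
  have hs : ∀ n, s (n + 1) = nx n (s n) := fun n => rfl
  obtain ⟨p, hp, _⟩ := lim s (fun n => by rw [hs]; exact hnx _ _)
  obtain ⟨ξ, hξ⟩ : ∃ ξ : W1, ∀ n, ξ ≠ xi' n (s n) := by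
    by_contra hcon
    push Not at hcon
    apply unc_W1
    refine (countable_range (fun n => xi' n (s n))).mono ?_
    intro ξ _
    obtain ⟨n, hn⟩ := hcon ξ
    exact ⟨n, hn.symm⟩
  have hpc : io p ≤ c := (h.mono _ _ (hp 0)).trans hp0
  have h1 : io p ≤ ⨆ η : Th, ⨆ _ : η < Ordinal.omega0, y ξ.1 η :=
    (hpc.trans inf_le_left).trans (iInf_le_of_le ξ.1 (iInf_le _ ξ.2))
  have h2 : ∃ n : ℕ, io p ⊓ y ξ.1 n ≠ ⊥ := by
    by_contra hcon
    push Not at hcon
    apply h.ne_bot p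
    rw [← le_bot_iff]
    calc io p ≤ io p ⊓ ⨆ η : Th, ⨆ _ : η < Ordinal.omega0, y ξ.1 η := le_inf le_rfl h1
      _ ≤ ⊥ := by
        rw [inf_iSup_eq]
        refine iSup_le (fun η => ?_)
        rw [inf_iSup_eq]
        refine iSup_le (fun hη => ?_)
        obtain ⟨n, rfl⟩ := Ordinal.lt_omega0.1 hη
        rw [hcon n]
  obtain ⟨n, hn⟩ := h2
  have h3 : io (s (n + 1)) ≤ y (xi' n (s n)).1 n := by
    rw [hs]
    rcases hxi n (s n) with h4 | h4
    · exact h4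
    · exfalso
      apply hn
      rw [← le_bot_iff, ← h4 ξ]
      exact inf_le_inf_right _ (h.mono _ _ (hp n))
  have h4 : io p ≤ y (xi' n (s n)).1 n := (h.mono _ _ (hp (n + 1))).trans h3
  have h5 : io p ≤ (y ξ.1 n ⊓ y (xi' n (s n)).1 n)ᶜ := by
    refine (hpc.trans inf_le_right).trans ?_
    refine iInf_le_of_le ξ.1 (iInf_le_of_le ξ.2 (iInf_le_of_le (xi' n (s n)).1
      (iInf_le_of_le (xi' n (s n)).2 (iInf_le_of_le ?_ (iInf_le_of_le (n : Th)
        (iInf_le _ (Ordinal.natCast_lt_omega0 n)))))))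
    intro he
    exact hξ n (Subtype.ext he)
  apply hn
  rw [← le_bot_iff]
  refine le_trans ?_ (inf_compl_eq_bot (a := y ξ.1 n ⊓ y (xi' n (s n)).1 n)).le
  exact le_inf (le_inf inf_le_right (inf_le_left.trans h4)) (inf_le_left.trans h5)

end Pool.Agent.CTD.H91
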